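import Pool.Agent.X198.TriOverlap

namespace Pool.Agent.Results.MP_071e18_gt.RightTriangle

open X198.TriOverlap

/-- For the right triangle with sides in the ratio `3 : 4 : 5` (vertices `(0,0), (16,0), (16,12)`)
the supremum of the boundary overlap ratio is at least `29/8`, while `csc (θ/2) = √10 < 29/8` for
its smallest angle `θ`. Hence the formula `M(T) = csc (θ/2)` is false. -/
theorem result :
    (¬ Collinear ℝ ({pA, pB, pC} : Set E) ∧
      1 / Real.sin (minAngle pA pB pC / 2) = Real.sqrt 10 ∧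
      ENNReal.ofReal (29 / 8) ≤ M (tri pA pB pC) ∧
      ENNReal.ofReal (1 / Real.sin (minAngle pA pB pC / 2)) < M (tri pA pB pC)) ∧
    ¬ (∀ A B C : E, ¬ Collinear ℝ ({A, B, C} : Set E) →
      M (tri A B C) = ENNReal.ofReal (1 / Real.sin (minAngle A B C / 2))) := by
  have h : ENNReal.ofReal (1 / Real.sin (minAngle pA pB pC / 2)) < M (tri pA pB pC) := by
    refine lt_of_lt_of_le ?_ M_ge
    rw [csc_eq]
    exact (ENNReal.ofReal_lt_ofReal_iff (by norm_num)).2 sqrt_lt
  refine ⟨⟨not_collinear, csc_eq, M_ge, h⟩, fun hall => ?_⟩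
  exact h.ne (hall pA pB pC not_collinear).symm

end Pool.Agent.Results.MP_071e18_gt.RightTriangle
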